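import Mathlib
import Pool.Agent.Work.MP_75f5df_co.Defs
import Pool.Agent.Work.MP_75f5df_co.Equiv
import Pool.Agent.Work.MP_75f5df_co.Model
import Pool.Agent.Work.MP_75f5df_co.NotAmen

set_option autoImplicit false

namespace Pool.Agent.Results.MP_75f5df_co.NotAmenable

open Cardinal Pool.Agent.Work.MP_75f5df_co

/-- every cardinal at least two is one plus the cardinal of a nonempty type; if it is at least three
that type has two elements -/
lemma exists_pred (n : Cardinal.{0}) (hn : 2 ≤ n) :
    ∃ (J : Type) (j1 : J), #J + 1 = n ∧ (3 ≤ n → ∃ j2 : J, j2 ≠ j1) := by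
  classical
  have hn' : 2 ≤ #n.out := by rw [Cardinal.mk_out]; exact hn
  obtain ⟨x, y, hxy⟩ := Cardinal.two_le_iff.mp hn'
  refine ⟨{z : n.out // z ≠ x}, ⟨y, hxy.symm⟩, ?_, ?_⟩
  · have e1 : n.out ≃ Option {z : n.out // z ≠ x} :=
      { toFun := fun w => if h : w = x then none else some ⟨w, h⟩
        invFun := fun o => match o with
          | none => x
          | some w => w.1
        left_inv := by
          intro w
          by_cases h : w = x
          · simp only [h, dite_true]
          · simp only [h, dite_false]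
        right_inv := by
          intro o
          cases o with
          | none => simp
          | some w => simp [w.2] }
    rw [← Cardinal.mk_option, ← Cardinal.mk_congr e1, Cardinal.mk_out]
  · intro h3
    have h3' : 3 ≤ #n.out := by rw [Cardinal.mk_out]; exact h3
    obtain ⟨z, hz1, hz2⟩ := Cardinal.exists_ne_ne_of_three_le h3' x y
    exact ⟨⟨z, hz1⟩, fun h => hz2 (congrArg Subtype.val h)⟩

/-- For all cardinals `m, n ≥ 2`, not both equal to `2` (in particular for all pairs with at least
one of them `ℵ₀`), the tree-like graph `T_{m,n}` exists, and the automorphism group of any such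
graph, with the topology of pointwise convergence, is not amenable. -/
theorem result (m n : Cardinal.{0}) (hm : 2 ≤ m) (hn : 2 ≤ n) (hmn : 3 ≤ m ∨ 3 ≤ n) :
    (∃ (V : Type) (G : SimpleGraph V), IsTreeLike G m n) ∧
    ∀ (V : Type) (G : SimpleGraph V), IsTreeLike G m n →
      ¬ @IsAmenable (G ≃g G) _ (autTopology G) := by
  obtain ⟨J, j1, hJ, hJ3⟩ := exists_pred n hn
  have hI : #m.out = m := Cardinal.mk_out m
  have hm' : 2 ≤ #m.out := by rw [hI]; exact hm
  obtain ⟨i1, i2, hi⟩ := Cardinal.two_le_iff.mp hm'
  have : Nonempty m.out := ⟨i1⟩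
  have : Nonempty J := ⟨j1⟩
  refine ⟨⟨_, ListG m.out J, treeLike_of_good hI hJ listG_good⟩, ?_⟩
  intro V G hG
  have hgood : Good G m.out J := good_of_treeLike hI hJ hG
  obtain ⟨v0⟩ := hG.connected.nonempty
  refine not_amenable_of_good hgood v0 i1 i2 j1 hi ?_
  rcases hmn with h | h
  · left
    have h3 : 3 ≤ #m.out := by rw [hI]; exact h
    exact Cardinal.exists_ne_ne_of_three_le h3 i1 i2
  · right
    exact hJ3 h

end Pool.Agent.Results.MP_75f5df_co.NotAmenable
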